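import Pool.Agent.Y780.PC.Core

/-!
Project PC (helper157), job INE1, part 2: a valuation above a rational point of the projective line.
-/

set_option autoImplicit false

open Polynomial

namespace Pool.Agent.Y780.PC

section val

variable {Ω Γ : Type} [Field Ω] [Algebra ℚ Ω] [LinearOrderedCommGroupWithZero Γ] (w : Valuation Ω Γ)

/-- the values of a polynomial near `e` -/
theorem val_eval (hq : ∀ q : ℚ, w (algebraMap ℚ Ω q) ≤ 1) {X0 : Ω} {e : ℚ}
    (hπ : w (X0 - algebraMap ℚ Ω e) < 1) (P : ℚ[X]) :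
    w (aeval X0 P - algebraMap ℚ Ω (P.eval e)) < 1 := by
  have hX : w X0 ≤ 1 := by
    have : X0 = (X0 - algebraMap ℚ Ω e) + algebraMap ℚ Ω e := by ring
    rw [this]
    exact (w.map_add _ _).trans (max_le hπ.le (hq e))
  obtain ⟨Q, hQ⟩ : X - C e ∣ P - C (P.eval e) := by
    rw [Polynomial.dvd_iff_isRoot]
    simp [Polynomial.IsRoot]
  have h1 : aeval X0 P - algebraMap ℚ Ω (P.eval e) = (X0 - algebraMap ℚ Ω e) * aeval X0 Q := by
    have := congrArg (aeval X0) hQ
    simpa using this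
  rw [h1, map_mul]
  calc w (X0 - algebraMap ℚ Ω e) * w (aeval X0 Q) ≤ w (X0 - algebraMap ℚ Ω e) * 1 :=
        mul_le_mul_right (aeval_le w hX hq Q) _
    _ < 1 := by rw [mul_one]; exact hπ

theorem val_rat (hq : ∀ q : ℚ, w (algebraMap ℚ Ω q) ≤ 1) {q : ℚ} (h : q ≠ 0) :
    w (algebraMap ℚ Ω q) = 1 := by
  refine le_antisymm (hq q) ?_
  have h1 := hq q⁻¹
  have h2 : algebraMap ℚ Ω q ≠ 0 := (_root_.map_ne_zero _).2 h
  have h3 : 0 < w (algebraMap ℚ Ω q) := zero_lt_iff.2 (w.ne_zero_iff.2 h2)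
  rw [map_inv₀, map_inv₀, inv_le_one₀ h3] at h1
  exact h1

theorem val_unit (hq : ∀ q : ℚ, w (algebraMap ℚ Ω q) ≤ 1) {X0 : Ω} {e : ℚ}
    (hπ : w (X0 - algebraMap ℚ Ω e) < 1) {P : ℚ[X]} (hP : P.eval e ≠ 0) : w (aeval X0 P) = 1 := by
  have h1 := val_eval w hq hπ P
  have h2 := val_rat w hq hP
  have h3 : aeval X0 P = (aeval X0 P - algebraMap ℚ Ω (P.eval e)) + algebraMap ℚ Ω (P.eval e) := by ring
  rw [h3, w.map_add_eq_of_lt_right (by rw [h2]; exact h1), h2]

theorem poly_form {e : ℚ} {P : ℚ[X]} (hP : P ≠ 0) :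
    ∃ (k : ℕ) (P1 : ℚ[X]), P = (X - C e) ^ k * P1 ∧ P1.eval e ≠ 0 := by
  obtain ⟨q, h1, h2⟩ := Polynomial.exists_eq_pow_rootMultiplicity_mul_and_not_dvd P hP e
  refine ⟨_, q, h1, fun h => h2 ?_⟩
  rw [Polynomial.dvd_iff_isRoot]
  exact h

/-- the elements of `ℚ(x)` -/
theorem rat_form {R : Type} [Field R] [Algebra ℚ R] {x : R} (hx : IntermediateField.adjoin ℚ {x} = ⊤)
    (e : ℚ) {r : R} (hr : r ≠ 0) : ∃ (k l : ℕ) (P1 Q1 : ℚ[X]), P1.eval e ≠ 0 ∧ Q1.eval e ≠ 0 ∧
      r = ((x - algebraMap ℚ R e) ^ k * aeval x P1) / ((x - algebraMap ℚ R e) ^ l * aeval x Q1) := by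
  have h1 : r ∈ IntermediateField.adjoin ℚ {x} := by
    rw [hx]
    trivial
  rw [IntermediateField.mem_adjoin_simple_iff] at h1
  obtain ⟨P, Q, h2⟩ := h1
  have hP : P ≠ 0 := by
    rintro rfl
    exact hr (by rw [h2, map_zero, zero_div])
  have hQ : Q ≠ 0 := by
    rintro rfl
    exact hr (by rw [h2, map_zero, div_zero])
  obtain ⟨k, P1, e1, e2⟩ := poly_form (e := e) hP
  obtain ⟨l, Q1, e3, e4⟩ := poly_form (e := e) hQ
  refine ⟨k, l, P1, Q1, e2, e4, ?_⟩
  rw [h2, e1, e3]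
  simp

variable {R : Type} [Field R] [Algebra ℚ R] [Algebra R Ω] [IsScalarTower ℚ R Ω]

theorem aeval_R (x : R) (P : ℚ[X]) : algebraMap R Ω (aeval x P) = aeval (algebraMap R Ω x) P :=
  (Polynomial.aeval_algebraMap_apply Ω x P).symm

/-- the values of the elements of `ℚ(x)` -/
theorem val_R (hq : ∀ q : ℚ, w (algebraMap ℚ Ω q) ≤ 1) {x : R} (hx : IntermediateField.adjoin ℚ {x} = ⊤)
    {e : ℚ} (hπ : w (algebraMap R Ω x - algebraMap ℚ Ω e) < 1)
    (hπ0 : algebraMap R Ω x - algebraMap ℚ Ω e ≠ 0) {r : R} (hr : r ≠ 0) :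
    (∃ n : ℤ, w (algebraMap R Ω r) = w (algebraMap R Ω x - algebraMap ℚ Ω e) ^ n) ∧
    (w (algebraMap R Ω r) ≤ 1 → ∃ q : ℚ, w (algebraMap R Ω r - algebraMap ℚ Ω q) < 1) := by
  obtain ⟨k, l, P1, Q1, h1, h2, h3⟩ := rat_form hx e hr
  set p : Ω := algebraMap R Ω x - algebraMap ℚ Ω e with hp
  have h4 : algebraMap R Ω r = (p ^ k * aeval (algebraMap R Ω x) P1) /
      (p ^ l * aeval (algebraMap R Ω x) Q1) := by
    rw [h3, map_div₀, map_mul, map_mul, map_pow, map_pow, map_sub, aeval_R, aeval_R,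
      ← IsScalarTower.algebraMap_apply ℚ R Ω e]
  have u1 := val_unit w hq hπ h1
  have u2 := val_unit w hq hπ h2
  have hp0 : 0 < w p := zero_lt_iff.2 (w.ne_zero_iff.2 hπ0)
  have h5 : w (algebraMap R Ω r) = w p ^ ((k : ℤ) - l) := by
    rw [h4, map_div₀, map_mul, map_mul, map_pow, map_pow, u1, u2, mul_one, mul_one,
      zpow_sub₀ hp0.ne', zpow_natCast, zpow_natCast]
  refine ⟨⟨_, h5⟩, fun h6 => ?_⟩
  by_cases h7 : w (algebraMap R Ω r) < 1
  · exact ⟨0, by rwa [map_zero, sub_zero]⟩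
  · have h8 : w (algebraMap R Ω r) = 1 := le_antisymm h6 (not_lt.1 h7)
    have hkl : k = l := by
      by_contra hne
      rw [h5] at h8
      rcases lt_or_gt_of_ne hne with h | h
      · have : w p ^ ((l : ℤ) - k) = 1 := by
          have e1 : ((l : ℤ) - k) = -((k : ℤ) - l) := by ring
          rw [e1, zpow_neg, h8, inv_one]
        have e2 : ((l : ℤ) - k) = ((l - k : ℕ) : ℤ) := by omega
        rw [e2, zpow_natCast] at this
        exact absurd this (pow_lt_one₀ zero_le hπ (by omega)).ne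
      · have e2 : ((k : ℤ) - l) = ((k - l : ℕ) : ℤ) := by omega
        rw [e2, zpow_natCast] at h8
        exact absurd h8 (pow_lt_one₀ zero_le hπ (by omega)).ne
    refine ⟨P1.eval e / Q1.eval e, ?_⟩
    have g1 := val_eval w hq hπ P1
    have g2 := val_eval w hq hπ Q1
    set a := aeval (algebraMap R Ω x) P1
    set b := aeval (algebraMap R Ω x) Q1
    set c := algebraMap ℚ Ω (P1.eval e) with hc
    set d := algebraMap ℚ Ω (Q1.eval e) with hd
    have hd1 : w d = 1 := val_rat w hq h2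
    have hc1 : w c = 1 := val_rat w hq h1
    have hb0 : b ≠ 0 := w.ne_zero_iff.1 (by rw [u2]; exact one_ne_zero)
    have hd0 : d ≠ 0 := w.ne_zero_iff.1 (by rw [hd1]; exact one_ne_zero)
    have e1 : algebraMap R Ω r - algebraMap ℚ Ω (P1.eval e / Q1.eval e) =
        ((a - c) * d - c * (b - d)) / (b * d) := by
      rw [h4, hkl, mul_div_mul_left _ _ (pow_ne_zero l hπ0), map_div₀, ← hc, ← hd]
      field_simp
      ring
    rw [e1, map_div₀, map_mul w b d, u2, hd1, mul_one, div_one]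
    apply w.map_sub_lt
    · rw [map_mul, hd1, mul_one]
      exact g1
    · rw [map_mul, hc1, one_mul]
      exact g2

/-- an algebraic element of the valuation ring has an algebraic value -/
theorem val_alg (hq : ∀ q : ℚ, w (algebraMap ℚ Ω q) ≤ 1) {x : R} (hx : IntermediateField.adjoin ℚ {x} = ⊤)
    {e : ℚ} (hπ : w (algebraMap R Ω x - algebraMap ℚ Ω e) < 1)
    (hπ0 : algebraMap R Ω x - algebraMap ℚ Ω e ≠ 0) {z : Ω} (hz : w z ≤ 1) (hza : IsAlgebraic R z) :
    ∃ P : ℚ[X], P ≠ 0 ∧ w (aeval z P) < 1 := by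
  classical
  obtain ⟨f, hf0, hfz⟩ := hza
  obtain ⟨j0, hj0, hmax⟩ := Finset.exists_max_image f.support (fun j => w (algebraMap R Ω (f.coeff j)))
    (Polynomial.support_nonempty.2 hf0)
  set c := f.coeff j0 with hc
  have hc0 : c ≠ 0 := Polynomial.mem_support_iff.1 hj0
  have hcΩ : algebraMap R Ω c ≠ 0 := (_root_.map_ne_zero _).2 hc0
  have hwc : 0 < w (algebraMap R Ω c) := zero_lt_iff.2 (w.ne_zero_iff.2 hcΩ)
  have hb : ∀ j, w (algebraMap R Ω (f.coeff j / c)) ≤ 1 := by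
    intro j
    rw [map_div₀, map_div₀]
    by_cases h : j ∈ f.support
    · exact div_le_one_of_le₀ (hmax j h) zero_le
    · rw [Polynomial.notMem_support_iff.1 h, map_zero, map_zero, zero_div]
      exact zero_le_one
  have hqj : ∀ j, ∃ q : ℚ, w (algebraMap R Ω (f.coeff j / c) - algebraMap ℚ Ω q) < 1 := by
    intro j
    by_cases h : f.coeff j / c = 0
    · exact ⟨0, by rw [h, map_zero, map_zero, sub_zero, map_zero]; exact zero_lt_one⟩
    · exact (val_R w hq hx hπ hπ0 h).2 (hb j)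
  choose q hqq using hqj
  have hq0 : q j0 ≠ 0 := by
    intro h
    have h1 := hqq j0
    rw [h, ← hc, div_self hc0, map_one, map_zero, sub_zero, map_one] at h1
    exact lt_irrefl _ h1
  set N := f.natDegree + 1 with hN
  have hj0N : j0 < N := by
    have := Polynomial.le_natDegree_of_mem_supp j0 hj0
    omega
  refine ⟨∑ j ∈ Finset.range N, C (q j) * X ^ j, ?_, ?_⟩
  · intro h
    have h1 := congrArg (fun P : ℚ[X] => P.coeff j0) h
    simp only [Polynomial.finsetSum_coeff, Polynomial.coeff_C_mul_X_pow, Polynomial.coeff_zero] at h1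
    rw [Finset.sum_eq_single j0] at h1
    · rw [if_pos rfl] at h1
      exact hq0 h1
    · intro b _ hb
      rw [if_neg (Ne.symm hb)]
    · intro h2
      exact absurd (Finset.mem_range.2 hj0N) h2
  · have h1 : aeval z (∑ j ∈ Finset.range N, C (q j) * X ^ j : ℚ[X]) =
        ∑ j ∈ Finset.range N, algebraMap ℚ Ω (q j) * z ^ j := by
      rw [map_sum]
      refine Finset.sum_congr rfl fun j _ => ?_
      rw [map_mul, aeval_C, map_pow, aeval_X]
    have h2 : ∑ j ∈ Finset.range N, algebraMap R Ω (f.coeff j / c) * z ^ j = 0 := by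
      rw [Polynomial.aeval_eq_sum_range] at hfz
      have : ∑ j ∈ Finset.range N, algebraMap R Ω (f.coeff j / c) * z ^ j =
          (algebraMap R Ω c)⁻¹ * ∑ j ∈ Finset.range N, f.coeff j • z ^ j := by
        rw [Finset.mul_sum]
        refine Finset.sum_congr rfl fun j _ => ?_
        rw [Algebra.smul_def, map_div₀, div_eq_mul_inv]
        ring
      rw [this, hfz, mul_zero]
    have h3 : ∑ j ∈ Finset.range N, algebraMap ℚ Ω (q j) * z ^ j =
        - ∑ j ∈ Finset.range N, (algebraMap R Ω (f.coeff j / c) - algebraMap ℚ Ω (q j)) * z ^ j := by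
      have : ∑ j ∈ Finset.range N, (algebraMap R Ω (f.coeff j / c) - algebraMap ℚ Ω (q j)) * z ^ j =
          ∑ j ∈ Finset.range N, algebraMap R Ω (f.coeff j / c) * z ^ j -
            ∑ j ∈ Finset.range N, algebraMap ℚ Ω (q j) * z ^ j := by
        rw [← Finset.sum_sub_distrib]
        exact Finset.sum_congr rfl fun j _ => by ring
      rw [this, h2]
      ring
    rw [h1, h3, Valuation.map_neg]
    refine w.map_sum_lt one_ne_zero fun j _ => ?_
    rw [map_mul, map_pow]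
    calc w (algebraMap R Ω (f.coeff j / c) - algebraMap ℚ Ω (q j)) * w z ^ j
        ≤ w (algebraMap R Ω (f.coeff j / c) - algebraMap ℚ Ω (q j)) * 1 :=
          mul_le_mul_right (pow_le_one' hz j) _
      _ < 1 := by rw [mul_one]; exact hqq j

end val

end Pool.Agent.Y780.PC
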