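import Pool.Agent.Y157.PC.Stm
import Pool.Agent.Y780.PC.Val

/-!
Project PC (helper157), job INE1: an inertia automorphism of an unramified extension is trivial.
-/

set_option autoImplicit false

open Polynomial

namespace Pool.Agent.Y780.PC

open Pool.Agent.Y157.PS Pool.Agent.Y157.PC

theorem isU_iff {K : Type} [Field K] (V : ValuationSubring K) (z : K) : IsU V z ↔ V.valuation z = 1 := by
  unfold IsU
  constructor
  · rintro ⟨h0, h1, h2⟩
    rw [← V.valuation_le_one_iff] at h1 h2
    refine le_antisymm h1 ?_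
    rw [map_inv₀] at h2
    have h3 : 0 < V.valuation z := zero_lt_iff.2 (V.valuation.ne_zero_iff.2 h0)
    rwa [inv_le_one₀ h3] at h2
  · intro h
    refine ⟨?_, ?_, ?_⟩
    · rintro rfl
      rw [map_zero] at h
      exact zero_ne_one h
    · rw [← V.valuation_le_one_iff, h]
    · rw [← V.valuation_le_one_iff, map_inv₀, h, inv_one]

theorem ine1 : S_INE1 := by
  intro R Ω _ _ _ _ _ _ _ x hx htop e L hfin hgal hunr W hW γ hγ
  obtain ⟨hWq, hWπ⟩ := hW
  set w := W.valuation with hw
  have hq : ∀ q : ℚ, w (algebraMap ℚ Ω q) ≤ 1 := fun q => (W.valuation_le_one_iff _).2 (hWq q)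
  have hπ : w (algebraMap R Ω x - algebraMap ℚ Ω e) < 1 := (W.mem_nonunits_iff).1 hWπ
  have hπ0 : algebraMap R Ω x - algebraMap ℚ Ω e ≠ 0 := by
    intro h
    rw [IsScalarTower.algebraMap_apply ℚ R Ω e, ← map_sub] at h
    have h1 : x - algebraMap ℚ R e = 0 := (_root_.map_eq_zero _).1 h
    apply hx
    rw [sub_eq_zero.1 h1]
    exact isAlgebraic_algebraMap e
  let v : Valuation L W.ValueGroup := w.comap (algebraMap L Ω)
  have hv : ∀ z : L, v z = w (z : Ω) := fun z => rfl
  have halg : Algebra.IsAlgebraic R L := inferInstance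
  have key := core v ((γ : L ≃ₐ[R] L) : L →+* L) (algebraMap R L (x - algebraMap ℚ R e)) ?_ ?_ ?_ ?_ ?_ ?_ ?_
  · ext z
    exact congrArg _ (key z)
  · intro h
    apply hπ0
    have h1 := (_root_.map_eq_zero _).1 h
    rw [IsScalarTower.algebraMap_apply ℚ R Ω e, ← map_sub, h1, map_zero]
  · have : v (algebraMap R L (x - algebraMap ℚ R e)) = w (algebraMap R Ω x - algebraMap ℚ Ω e) := by
      rw [hv, IsScalarTower.algebraMap_apply ℚ R Ω e, ← map_sub]
      rfl
    rw [this]
    exact hπ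
  · exact γ.commutes _
  · intro z hz
    have hzΩ : (z : Ω) ≠ 0 := fun h => hz (Subtype.ext h)
    obtain ⟨t, ht0, ht⟩ := hunr W ⟨hWq, hWπ⟩ z z.2 hzΩ
    rw [isU_iff, map_div₀] at ht
    obtain ⟨n, hn⟩ := (val_R w hq htop hπ hπ0 ht0).1
    refine ⟨n, ?_⟩
    have h1 : v (algebraMap R L (x - algebraMap ℚ R e)) = w (algebraMap R Ω x - algebraMap ℚ Ω e) := by
      rw [hv, IsScalarTower.algebraMap_apply ℚ R Ω e, ← map_sub]
      rfl
    rw [h1, ← hn, hv]
    have h2 : w (algebraMap R Ω t) ≠ 0 := w.ne_zero_iff.2 ((_root_.map_ne_zero _).2 ht0)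
    rwa [div_eq_one_iff_eq h2] at ht
  · intro q hq0
    have : v (algebraMap ℚ L q) = w (algebraMap ℚ Ω q) := by
      rw [hv]
      congr 1
    rw [this]
    exact val_rat w hq hq0
  · intro z hz
    have hza : IsAlgebraic R (z : Ω) := by
      have := (Algebra.IsAlgebraic.isAlgebraic (R := R) z)
      exact this.algebraMap
    obtain ⟨P, hP0, hP1⟩ := val_alg w hq htop hπ hπ0 (z := (z : Ω)) hz hza
    refine ⟨P, hP0, ?_⟩
    have h1 : ((aeval z P : L) : Ω) = aeval (z : Ω) P := by
      have hℚ : ∀ (f g : ℚ[X] →+* Ω), f X = g X → f = g := by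
        intro f g h
        refine Polynomial.ringHom_ext (fun a => ?_) h
        exact RingHom.congr_fun (Subsingleton.elim (f.comp C) (g.comp C)) a
      have := hℚ ((algebraMap L Ω).comp (aeval z : ℚ[X] →ₐ[ℚ] L).toRingHom) (aeval (z : Ω) : ℚ[X] →ₐ[ℚ] Ω).toRingHom
        (by simp)
      exact congrArg (fun f : ℚ[X] →+* Ω => f P) this
    rw [hv, h1]
    exact hP1
  · intro z hz
    have h1 := hγ z ((W.valuation_le_one_iff _).1 hz)
    rw [ValuationSubring.mem_nonunits_iff] at h1
    exact h1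

end Pool.Agent.Y780.PC
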