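import Pool.Agent.Y157.PC.Stm2
import Pool.Agent.Y157.PS.Tools
import Pool.Agent.Y536.PS.CONJ

/-!
Project PC (helper157), job TAUX: from the action on values to an element of the decomposition group.
-/

set_option autoImplicit false

open Polynomial

namespace Pool.Agent.Y780.PC

open Pool.Agent.Y157.PS Pool.Agent.Y157.PC

theorem non_comap {M N : Type} [Field M] [Field N] (i : N →+* M) (O : ValuationSubring M) (z : N) :
    z ∈ (O.comap i).nonunits ↔ i z ∈ O.nonunits := by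
  rw [nonunits_iff, nonunits_iff, ValuationSubring.mem_comap, ValuationSubring.mem_comap, map_inv₀,
    map_eq_zero_iff i i.injective]

theorem taux (hUNQF : S_UNQF) (hVALS : S_VALS) (hINE1 : S_INE1) : S_TAUX := by
  intro K _ _ e he hev h4 d hd R Ω _ _ _ _ _ _ hcl x hx htop F y hy hFtop i L hfin hgal hunr N hN
    hLN hκN σ s hs γ hγs hCc
  obtain ⟨W0, hAt, hval⟩ := hCc
  obtain ⟨hWq, hWπ⟩ := id hAt
  have : IsAlgClosed Ω := IsAlgClosure.isAlgClosed R
  have : Algebra.IsAlgebraic R Ω := IsAlgClosure.isAlgebraic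
  have : Algebra.IsAlgebraic F Ω := Algebra.IsAlgebraic.tower_top (K := R) F
  have : IsAlgClosure F Ω := ⟨inferInstance, inferInstance⟩
  have : Normal F Ω := IsAlgClosure.normal F Ω
  let t0 : Ω ≃ₐ[F] Ω := AlgEquiv.liftNormal s Ω
  have ht0 : ∀ z : N, t0 (z : Ω) = (s z : Ω) := fun z => AlgEquiv.liftNormal_commutes s Ω z
  have ht0κ : ∀ c : algebraicClosure ℚ Ω, t0 (c : Ω) = (σ c : Ω) := by
    intro c
    have h1 := ht0 ⟨(c : Ω), hκN c⟩
    rw [hs c ⟨(c : Ω), hκN c⟩ rfl] at h1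
    exact h1
  have hQ : ∀ (t : Ω ≃ₐ[F] Ω) (c : ℚ), t (algebraMap ℚ Ω c) = algebraMap ℚ Ω c := by
    intro t c
    rw [eq_ratCast (algebraMap ℚ Ω) c, map_ratCast]
  have hxF : algebraMap R Ω x = algebraMap F Ω (algebraMap R F x) := rfl
  have hX : ∀ t : Ω ≃ₐ[F] Ω, t (algebraMap R Ω x - algebraMap ℚ Ω (e i : ℚ)) =
      algebraMap R Ω x - algebraMap ℚ Ω (e i : ℚ) := by
    intro t
    rw [map_sub, hQ, hxF, t.commutes]
  let W2 : ValuationSubring Ω := W0.comap (t0 : Ω →+* Ω)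
  have hW2 : ∀ z, z ∈ W2 ↔ t0 z ∈ W0 := fun z => Iff.rfl
  have hUN := hUNQF K e he hev h4 d hd F Ω (algebraMap R F x) y
    ((transcendental_algebraMap_iff (algebraMap R F).injective).2 hx) hy hFtop i W2 W0
    (fun c => by
      rw [hW2, hQ]
      exact hWq c)
    (by
      refine (non_comap _ _ _).2 ?_
      have h1 := hX t0
      rw [hxF] at h1
      change t0 (algebraMap F Ω (algebraMap R F x) - algebraMap ℚ Ω (e i : ℚ)) ∈ W0.nonunits
      rw [h1]
      exact hWπ)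
    hWq hWπ
  set G := geomF ℚ F Ω with hG
  have : Algebra.IsAlgebraic G Ω := Algebra.IsAlgebraic.tower_top (K := F) G
  have : IsAlgClosure G Ω := ⟨inferInstance, inferInstance⟩
  have : Normal G Ω := IsAlgClosure.normal G Ω
  obtain ⟨g, hg⟩ := Pool.Agent.Y536.PS.conj G Ω W0 W2 (by
    ext z
    rw [ValuationSubring.mem_comap, ValuationSubring.mem_comap]
    exact (hUN z z.2).symm)
  let g' : Ω ≃ₐ[F] Ω := g.symm.restrictScalars F
  let t1 : Ω ≃ₐ[F] Ω := g'.trans t0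
  have ht1 : ∀ z, t1 z = t0 (g.symm z) := fun z => rfl
  have hst : ∀ z, t1 z ∈ W0 ↔ z ∈ W0 := by
    intro z
    rw [ht1, ← hW2, hg, AlgEquiv.apply_symm_apply]
  have hstn : ∀ z, z ∈ W0.nonunits → t1 z ∈ W0.nonunits := by
    intro z hz
    rw [nonunits_iff] at hz ⊢
    refine ⟨(hst z).2 hz.1, ?_⟩
    rcases hz.2 with h | h
    · exact Or.inl (by rw [h, map_zero])
    · refine Or.inr ?_
      rw [← map_inv₀, hst]
      exact h
  have ht1κ : ∀ c : algebraicClosure ℚ Ω, t1 (c : Ω) = (σ c : Ω) := by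
    intro c
    rw [ht1]
    have hcG : (c : Ω) ∈ G := IntermediateField.subset_adjoin F _ c.2
    have h1 : g.symm (c : Ω) = c := g.symm.commutes ⟨(c : Ω), hcG⟩
    rw [h1, ht0κ]
  have : Normal R L := hgal.to_normal
  let t1R : Ω ≃ₐ[R] Ω := t1.restrictScalars R
  let γ1 : L ≃ₐ[R] L := t1R.restrictNormal L
  have hγ1 : ∀ z : L, (γ1 z : Ω) = t1 (z : Ω) := fun z => AlgEquiv.restrictNormal_commutes t1R L z
  obtain ⟨E, -, hE⟩ := hVALS R Ω x hx htop (e i : ℚ) L hfin hgal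
  have hcmp : ∀ z : L, (z : Ω) ∈ W0 → (γ1 z : Ω) - (γ z : Ω) ∈ W0.nonunits := by
    intro z hz
    obtain ⟨c, -, hc⟩ := hE W0 hAt z z.2 hz
    have h1 := hval z c hc
    have h2 := hstn _ hc
    rw [map_sub, ht1κ, ← hγ1] at h2
    have h3 := non_sub h2 h1
    have h4 : (γ1 z : Ω) - (γ z : Ω) = ((γ1 z : Ω) - (σ c : Ω)) - ((γ z : Ω) - (σ c : Ω)) := by ring
    rw [h4]
    exact h3
  have hinv : ∀ w : L, (w : Ω) ∈ W0 → ((γ.symm w : L) : Ω) ∈ W0 := by
    intro w hw
    set z := γ.symm w with hz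
    have hwz : γ z = w := γ.apply_symm_apply w
    by_contra hzW
    have hz0 : (z : Ω) ≠ 0 := by
      intro h
      exact hzW (by rw [h]; exact zero_mem _)
    have h1 : ((z : Ω))⁻¹ ∈ W0 := (W0.mem_or_inv_mem (z : Ω)).resolve_left hzW
    have h2 : ((z⁻¹ : L) : Ω) - ((0 : algebraicClosure ℚ Ω) : Ω) ∈ W0.nonunits := by
      rw [ZeroMemClass.coe_zero, sub_zero, nonunits_iff]
      have e1 : ((z⁻¹ : L) : Ω) = ((z : Ω))⁻¹ := rfl
      rw [e1]
      exact ⟨h1, Or.inr (by rwa [inv_inv])⟩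
    have h3 := hval _ _ h2
    rw [map_zero, ZeroMemClass.coe_zero, sub_zero, map_inv₀, hwz] at h3
    have e2 : ((w⁻¹ : L) : Ω) = ((w : Ω))⁻¹ := rfl
    rw [e2, nonunits_iff] at h3
    rcases h3.2 with h | h
    · have hw0 : (w : Ω) = 0 := inv_eq_zero.1 h
      have : w = 0 := Subtype.ext hw0
      have : z = 0 := by rw [hz, this, map_zero]
      exact hz0 (by rw [this]; rfl)
    · rw [inv_inv] at h
      exact h hw
  have hone := hINE1 R Ω x hx htop (e i : ℚ) L hfin hgal hunr W0 hAt (γ.symm.trans γ1) (by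
    intro w hw
    have h1 := hcmp (γ.symm w) (hinv w hw)
    rw [AlgEquiv.apply_symm_apply] at h1
    exact h1)
  have hγγ : ∀ z : L, γ1 z = γ z := by
    intro z
    have h1 := congrArg (fun f : L ≃ₐ[R] L => f (γ z)) hone
    simp only [AlgEquiv.trans_apply, AlgEquiv.symm_apply_apply, AlgEquiv.one_apply] at h1
    exact h1
  have := hN
  let τ : N ≃ₐ[F] N := t1.restrictNormal N
  have hτ : ∀ z : N, (τ z : Ω) = t1 (z : Ω) := fun z => AlgEquiv.restrictNormal_commutes t1 N z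
  refine ⟨W0.comap (algebraMap N Ω), τ, ?_, ?_, ?_, ?_, ?_⟩
  · intro c
    rw [ValuationSubring.mem_comap]
    have h1 : algebraMap N Ω (algebraMap F N (algebraMap ℚ F c)) = algebraMap ℚ Ω c := by
      rw [eq_ratCast (algebraMap ℚ F) c, eq_ratCast (algebraMap ℚ Ω) c, map_ratCast, map_ratCast]
    rw [h1]
    exact hWq c
  · rw [non_comap]
    have h1 : algebraMap N Ω (algebraMap F N (algebraMap R F x - algebraMap ℚ F (e i : ℚ))) =
        algebraMap R Ω x - algebraMap ℚ Ω (e i : ℚ) := by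
      rw [map_sub, map_sub, eq_ratCast (algebraMap ℚ F), eq_ratCast (algebraMap ℚ Ω), map_ratCast,
        map_ratCast]
      rfl
    rw [h1]
    exact hWπ
  · intro z
    rw [ValuationSubring.mem_comap, ValuationSubring.mem_comap]
    change (τ z : Ω) ∈ W0 ↔ (z : Ω) ∈ W0
    rw [hτ, hst]
  · intro z hz
    apply Subtype.ext
    rw [hτ]
    have h1 := hγ1 ⟨(z : Ω), hz⟩
    have h2 := hγs ⟨(z : Ω), hz⟩ z rfl
    rw [hγγ] at h1
    rw [← h2, h1]
  · intro z c hz
    apply Subtype.ext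
    rw [hτ, hz, ht1κ, hs c z hz]

end Pool.Agent.Y780.PC
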