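import Mathlib

/-!
Project PC (helper157), job INE1, part 1: an automorphism of a field in the inertia group of a
discrete valuation of residue characteristic zero with a fixed uniformizer is trivial.
-/

set_option autoImplicit false

open Polynomial

namespace Pool.Agent.Y780.PC

section core

variable {L Γ : Type} [Field L] [Algebra ℚ L] [LinearOrderedCommGroupWithZero Γ] (v : Valuation L Γ)

theorem aeval_le {z : L} (hz : v z ≤ 1) (hq : ∀ q : ℚ, v (algebraMap ℚ L q) ≤ 1) (P : ℚ[X]) :
    v (aeval z P) ≤ 1 := by
  induction P using Polynomial.induction_on' with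
  | add p q hp hq' =>
    rw [map_add]
    exact (v.map_add _ _).trans (max_le hp hq')
  | monomial n a =>
    rw [aeval_monomial, map_mul, map_pow]
    exact mul_le_one' (hq a) (pow_le_one' hz n)

theorem gamma_rat (γ : L →+* L) (q : ℚ) : γ (algebraMap ℚ L q) = algebraMap ℚ L q := by
  rw [eq_ratCast (algebraMap ℚ L) q, map_ratCast]

theorem der {γ : L →+* L} {B : Γ} (hB : 0 < B) (hq : ∀ q : ℚ, v (algebraMap ℚ L q) ≤ 1)
    (hγ1 : ∀ z, v z ≤ 1 → v (γ z - z) < 1) (hγB : ∀ z, v z ≤ 1 → v (γ z - z) ≤ B) {z : L}
    (hz : v z ≤ 1) (P : ℚ[X]) :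
    v ((γ (aeval z P) - aeval z P) - aeval z (derivative P) * (γ z - z)) < B := by
  induction P using Polynomial.induction_on with
  | C a =>
    rw [aeval_C, gamma_rat, derivative_C, map_zero, zero_mul, sub_self, sub_self, map_zero]
    exact hB
  | add p q hp hq' =>
    have e : (γ (aeval z (p + q)) - aeval z (p + q)) - aeval z (derivative (p + q)) * (γ z - z) =
        ((γ (aeval z p) - aeval z p) - aeval z (derivative p) * (γ z - z)) +
        ((γ (aeval z q) - aeval z q) - aeval z (derivative q) * (γ z - z)) := by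
      simp only [map_add]
      ring
    rw [e]
    exact v.map_add_lt hp hq'
  | monomial n a ih =>
    set Q : ℚ[X] := C a * X ^ n with hQ
    have hQX : (C a * X ^ (n + 1) : ℚ[X]) = Q * X := by
      rw [hQ, pow_succ, mul_assoc]
    rw [hQX]
    have e : (γ (aeval z (Q * X)) - aeval z (Q * X)) - aeval z (derivative (Q * X)) * (γ z - z) =
        z * ((γ (aeval z Q) - aeval z Q) - aeval z (derivative Q) * (γ z - z)) +
        (γ (aeval z Q) - aeval z Q) * (γ z - z) := by
      rw [derivative_mul, derivative_X]
      simp only [map_add, map_mul, aeval_X, map_one]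
      ring
    rw [e]
    have hQz := aeval_le v hz hq Q
    apply v.map_add_lt
    · rw [map_mul]
      calc v z * v (γ (aeval z Q) - aeval z Q - aeval z (derivative Q) * (γ z - z))
          ≤ 1 * v (γ (aeval z Q) - aeval z Q - aeval z (derivative Q) * (γ z - z)) :=
            mul_le_mul_left hz _
        _ < B := by rw [one_mul]; exact ih
    · rw [map_mul]
      have h1 := hγ1 _ hQz
      have h2 := hγB _ hz
      by_cases h0 : v (γ z - z) = 0
      · rw [h0, mul_zero]
        exact hB
      · have h3 : 0 < v (γ z - z) := zero_lt_iff.2 h0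
        calc v (γ (aeval z Q) - aeval z Q) * v (γ z - z) < 1 * v (γ z - z) :=
              mul_lt_mul_of_pos_right h1 h3
          _ ≤ B := by rw [one_mul]; exact h2

theorem core (γ : L →+* L) (π : L) (hπ0 : π ≠ 0) (hπ1 : v π < 1) (hγπ : γ π = π)
    (hU : ∀ z, z ≠ 0 → ∃ n : ℤ, v z = v π ^ n)
    (hq : ∀ q : ℚ, q ≠ 0 → v (algebraMap ℚ L q) = 1)
    (hP : ∀ z, v z ≤ 1 → ∃ P : ℚ[X], P ≠ 0 ∧ v (aeval z P) < 1)
    (hγ : ∀ z, v z ≤ 1 → v (γ z - z) < 1) : ∀ z, γ z = z := by
  have hvπ : 0 < v π := zero_lt_iff.2 ((v.ne_zero_iff).2 hπ0)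
  have hq' : ∀ q : ℚ, v (algebraMap ℚ L q) ≤ 1 := by
    intro q
    by_cases h : q = 0
    · rw [h, map_zero, map_zero]
      exact zero_le_one
    · exact (hq q h).le
  have claim : ∀ n : ℕ, ∀ z, v z ≤ 1 → v (γ z - z) < v π ^ n := by
    intro n
    induction n with
    | zero =>
      intro z hz
      rw [pow_zero]
      exact hγ z hz
    | succ n ih =>
      have hB : 0 < v π ^ (n + 1) := pow_pos hvπ _
      have h1 : ∀ z, v z ≤ 1 → v (γ z - z) ≤ v π ^ (n + 1) := by
        intro z hz
        by_cases h0 : γ z - z = 0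
        · rw [h0, map_zero]
          exact hB.le
        · obtain ⟨m, hm⟩ := hU _ h0
          have h2 := ih z hz
          rw [hm, ← zpow_natCast] at h2
          have h3 : (n : ℤ) < m := by
            by_contra h
            exact absurd h2 (not_lt.2 (zpow_le_zpow_right_of_le_one₀ hvπ hπ1.le (not_lt.1 h)))
          rw [hm, ← zpow_natCast]
          exact zpow_le_zpow_right_of_le_one₀ hvπ hπ1.le (by push_cast; omega)
      have h2 : ∀ z, v z < 1 → v (γ z - z) < v π ^ (n + 1) := by
        intro z hz
        by_cases h0 : z = 0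
        · rw [h0, map_zero, sub_self, map_zero]
          exact hB
        · obtain ⟨m, hm⟩ := hU z h0
          have h3 : 0 < m := by
            by_contra h
            rw [hm] at hz
            have h4 := zpow_le_zpow_right_of_le_one₀ hvπ hπ1.le (not_lt.1 h)
            rw [zpow_zero] at h4
            exact absurd hz (not_lt.2 h4)
          have h4 : v (z / π) ≤ 1 := by
            rw [map_div₀, hm, div_eq_mul_inv, ← zpow_sub_one₀ hvπ.ne', ← zpow_zero (v π)]
            exact zpow_le_zpow_right_of_le_one₀ hvπ hπ1.le (by omega)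
          have h5 : γ z - z = π * (γ (z / π) - z / π) := by
            rw [map_div₀, hγπ]
            field_simp
          rw [h5, map_mul]
          calc v π * v (γ (z / π) - z / π) ≤ v π * v π ^ (n + 1) := mul_le_mul_right (h1 _ h4) _
            _ < 1 * v π ^ (n + 1) := mul_lt_mul_of_pos_right hπ1 hB
            _ = v π ^ (n + 1) := one_mul _
      intro z hz
      classical
      have hex : ∃ d : ℕ, ∃ P : ℚ[X], P ≠ 0 ∧ P.natDegree = d ∧ v (aeval z P) < 1 := by
        obtain ⟨P, hP0, hP1⟩ := hP z hz
        exact ⟨_, P, hP0, rfl, hP1⟩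
      obtain ⟨P, hP0, hPd, hP1⟩ := Nat.find_spec hex
      have hmin := fun m (hm : m < Nat.find hex) => Nat.find_min hex hm
      have hd0 : P.natDegree ≠ 0 := by
        intro h
        rw [Polynomial.natDegree_eq_zero] at h
        obtain ⟨c, rfl⟩ := h
        have hc : c ≠ 0 := by
          rintro rfl
          exact hP0 C_0
        rw [aeval_C, hq c hc] at hP1
        exact lt_irrefl _ hP1
      have hd1 : (derivative P).natDegree < P.natDegree := Polynomial.natDegree_derivative_lt hd0
      have hd2 : derivative P ≠ 0 := by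
        intro h
        exact hd0 (Polynomial.derivative_eq_zero.1 h)
      have h3 : v (aeval z (derivative P)) = 1 := by
        refine le_antisymm (aeval_le v hz hq' _) ?_
        by_contra h
        exact hmin _ (hPd ▸ hd1) ⟨derivative P, hd2, rfl, not_le.1 h⟩
      have h4 := der v hB hq' hγ h1 hz P
      have h5 := h2 _ hP1
      have h6 : v (aeval z (derivative P) * (γ z - z)) < v π ^ (n + 1) := by
        have e : aeval z (derivative P) * (γ z - z) = (γ (aeval z P) - aeval z P) -
            ((γ (aeval z P) - aeval z P) - aeval z (derivative P) * (γ z - z)) := by ring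
        rw [e]
        exact v.map_sub_lt h5 h4
      rw [map_mul, h3, one_mul] at h6
      exact h6
  have hO : ∀ z, v z ≤ 1 → γ z = z := by
    intro z hz
    by_contra h
    obtain ⟨m, hm⟩ := hU _ (sub_ne_zero.2 h)
    have h1 := claim m.toNat z hz
    rw [hm, ← zpow_natCast] at h1
    exact absurd h1 (not_lt.2 (zpow_le_zpow_right_of_le_one₀ hvπ hπ1.le (Int.self_le_toNat m)))
  intro z
  by_cases hz : v z ≤ 1
  · exact hO z hz
  · have h1 : v z⁻¹ ≤ 1 := by
      rw [map_inv₀]
      exact inv_le_one_of_one_le₀ (not_le.1 hz).le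
    have h2 := hO _ h1
    rw [map_inv₀] at h2
    exact inv_injective h2

end core

end Pool.Agent.Y780.PC
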